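import Pool.Agent.Helper64.FL.StH

set_option autoImplicit false

/-! Full list for MP_866009_co: ST_L3. -/

namespace Pool.Agent.Helper64.FL

open Pool.Agent.Helper64.CT Pool.Agent.Helper64.DT
open Pool.Agent.Helper64.HG (Ovl Model Circ IC HellyCircle ChordModel)

theorem st_L3 (hCN : ST_CNB) (hALS : CT.ST_ALS) : ST_L3 := by
  intro V G x k y hM hD v hv
  by_contra hcon
  rw [not_or] at hcon
  obtain ⟨hc1, hc2⟩ := hcon
  push Not at hc1 hc2
  obtain ⟨p, hp, hvp⟩ := hc1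
  obtain ⟨q, hq, hvq⟩ := hc2
  obtain ⟨hsym, htr, hmono, hadj, hcomp, hkc, _⟩ := hCN V G
  have k5 := hM.k5
  have hv0 : Comp G x (y 0) v := hv.1
  have hvx : v ∈ Far G x := hv0.2.1
  have hxv : x ∈ Far G v := ⟨hvx.1.symm, fun h => hvx.2 h.symm⟩
  -- the other components are far from `v`
  have far : ∀ i, 1 ≤ i → i < k → ∀ z, Comp G x (y i) z → z ∈ Far G v := by
    intro i h1 h2 z hz
    have hn := hM.ncm 0 i (by omega) (by omega)
    have e0 := hv0
    rw [hcomp] at e0 hz hn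
    have hzx := (hsym _ _ _ hz).1
    refine ⟨?_, ?_⟩
    · rintro rfl
      exact hn (htr _ _ _ _ e0 (hsym _ _ _ hz).2)
    · intro h
      exact hn (htr _ _ _ _ (htr _ _ _ _ e0 (hadj _ _ _ hvx hzx h)) (hsym _ _ _ hz).2)
  have joi : ∀ i, 1 ≤ i → i < k → ∀ p, p ∈ Att G x (y i) → ¬ G.Adj v p →
      ∀ z, Comp G x (y i) z → Comp G v x z := by
    intro i h1 h2 p hp hvp z hz
    obtain ⟨hxp, u, hu, hpu⟩ := hp
    have hpv : p ∈ Far G v := ⟨fun h => hvx.2 (h ▸ hxp), hvp⟩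
    have huv := far i h1 h2 u hu
    rw [hcomp]
    have c1 := hadj _ _ _ hxv hpv hxp
    have c2 := hadj _ _ _ hpv huv hpu
    have c3 := hmono _ (Far G v) _ _ (fun w hw => far i h1 h2 w hw) (hkc _ _ _ hu)
    have c4 := hmono _ (Far G v) _ _ (fun w hw => far i h1 h2 w hw) (hkc _ _ _ hz)
    exact htr _ _ _ _ (htr _ _ _ _ (htr _ _ _ _ c1 c2) (hsym _ _ _ c3).2) c4
  -- the dominated components
  have als : ∀ j, 2 ≤ j → j + 2 ≤ k → Alpha G x v (y j) ∧
      (∀ z, Comp G v (y j) z ↔ Comp G x (y j) z) ∧ Att G v (y j) = Att G x (y j) := by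
    intro j h1 h2
    refine hALS V G v x (y j) hvx ⟨?_, ?_, ?_⟩
    · obtain ⟨_, ⟨u, hu, _⟩, _⟩ := hM.cf j
      exact hu.1
    · intro h
      have hn := hM.ncm 0 j (by omega) (by omega)
      have e0 := hv0
      rw [hcomp] at e0 h hn
      exact hn (htr _ _ _ _ e0 h)
    · intro n hn
      exact hv.2 n ⟨j, h1, h2, hn⟩
  have rr : ∀ n ∈ RR G x k y, n ∈ Att G v x := by
    intro n hn
    have h1 := hv.2 n hn
    obtain ⟨j, _, _, hj⟩ := hn
    refine ⟨h1, x, ?_, hj.1.symm⟩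
    exact ⟨hxv, hxv, SimpleGraph.Reachable.refl _⟩
  have mix : ∀ u j, 2 ≤ j → j + 2 ≤ k → Mixed G u (Att G x (y j)) → Mixed G u (Att G v x) := by
    rintro u j h1 h2 ⟨⟨n, hn, hun⟩, m, hm, hum⟩
    exact ⟨⟨n, rr n ⟨j, h1, h2, hn⟩, hun⟩, m, rr m ⟨j, h1, h2, hm⟩, hum⟩
  -- conflicts at `v`
  have cfA : Conf G v x (y 2) := by
    obtain ⟨a1, a2, a3⟩ := als 2 le_rfl (by omega)
    obtain ⟨_, ⟨u, hu, hum⟩, _⟩ := hM.cf 1
    obtain ⟨_, ⟨w, hw, hwm⟩, _⟩ := hM.cf 2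
    refine ⟨a1.2.1, ⟨u, joi 1 le_rfl (by omega) p hp hvp u hu, ?_⟩, w, (a2 w).2 hw, ?_⟩
    · rw [a3]
      exact hum
    · exact mix w 3 (by omega) (by omega) hwm
  have cfB : Conf G v (y (k - 2)) x := by
    obtain ⟨a1, a2, a3⟩ := als (k - 2) (by omega) (by omega)
    have e1 := hM.cf (k - 2)
    rw [show k - 2 + 1 = k - 1 by omega] at e1
    have e2 := hM.cf (k - 3)
    rw [show k - 3 + 1 = k - 2 by omega] at e2
    obtain ⟨_, _, ⟨u, hu, hum⟩⟩ := e1
    obtain ⟨_, _, ⟨w, hw, hwm⟩⟩ := e2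
    refine ⟨?_, ⟨w, (a2 w).2 hw, mix w (k - 3) (by omega) (by omega) hwm⟩, u,
      joi (k - 1) (by omega) (by omega) q hq hvq u hu, ?_⟩
    · intro h
      have h2 := a1.2.1
      rw [hcomp] at h h2
      exact h2 (hsym _ _ _ h).2
    · rw [a3]
      exact hum
  have cfC : ∀ j, 2 ≤ j → j + 3 ≤ k → Conf G v (y j) (y (j + 1)) := by
    intro j h1 h2
    obtain ⟨a1, a2, a3⟩ := als j h1 (by omega)
    obtain ⟨b1, b2, b3⟩ := als (j + 1) (by omega) (by omega)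
    obtain ⟨c1, ⟨u, hu, hum⟩, ⟨w, hw, hwm⟩⟩ := hM.cf j
    refine ⟨fun h => c1 ((a2 _).1 h), ⟨u, (a2 u).2 hu, ?_⟩, w, (b2 w).2 hw, ?_⟩
    · rw [b3]
      exact hum
    · rw [a3]
      exact hwm
  -- a shorter closed walk of conflicts
  refine hM.min v (k - 2) (fun i => if i % (k - 2) = 0 then x else y (i % (k - 2) + 1))
    ?_ (by omega) ?_ ?_
  · obtain ⟨t, ht⟩ := hM.odd
    exact ⟨t - 1, by omega⟩
  · intro i
    simp only [Nat.add_mod_right]
  · intro i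
    have hr : i % (k - 2) < k - 2 := Nat.mod_lt _ (by omega)
    rcases Nat.lt_or_ge (i % (k - 2) + 1) (k - 2) with h | h
    · have e1 : (i + 1) % (k - 2) = i % (k - 2) + 1 := by
        rw [Nat.add_mod, Nat.mod_eq_of_lt (show 1 < k - 2 by omega), Nat.mod_eq_of_lt h]
      simp only [e1]
      rw [if_neg (show i % (k - 2) + 1 ≠ 0 by omega)]
      by_cases h0 : i % (k - 2) = 0
      · rw [if_pos h0, h0]
        exact cfA
      · rw [if_neg h0]
        exact cfC _ (by omega) (by omega)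
    · have e0 : i % (k - 2) = k - 3 := by omega
      have e1 : (i + 1) % (k - 2) = 0 := by
        rw [Nat.add_mod, Nat.mod_eq_of_lt (show 1 < k - 2 by omega), e0,
          show k - 3 + 1 = k - 2 by omega, Nat.mod_self]
      simp only [e1, e0]
      rw [if_neg (show k - 3 ≠ 0 by omega), if_pos trivial, show k - 3 + 1 = k - 2 by omega]
      exact cfB

end Pool.Agent.Helper64.FL
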